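import Mathlib

namespace Pool.Agent.MP_68f07c_an

open Filter Topology

variable (𝕜 : Type) [RCLike 𝕜]

/-- The closed linear span `[u n]` of a sequence. -/
def closedSpan {E : Type} [NormedAddCommGroup E] [NormedSpace 𝕜 E] (u : ℕ → E) :
    Submodule 𝕜 E :=
  (Submodule.span 𝕜 (Set.range u)).topologicalClosure

/-- `u` is a basic sequence: a Schauder basis of its closed linear span. -/
def IsBasicSequence {E : Type} [NormedAddCommGroup E] [NormedSpace 𝕜 E] (u : ℕ → E) : Prop :=
  ∃ b : SchauderBasis 𝕜 (closedSpan 𝕜 u), ∀ n, ((b n : closedSpan 𝕜 u) : E) = u n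

/-- The pre-annihilator of a set of functionals. -/
def preAnnihilator {E : Type} [NormedAddCommGroup E] [NormedSpace 𝕜 E]
    (A : Set (StrongDual 𝕜 E)) : Submodule 𝕜 E where
  carrier := {x | ∀ f ∈ A, f x = 0}
  add_mem' := by
    intro a b ha hb f hf
    rw [map_add, ha f hf, hb f hf, add_zero]
  zero_mem' := by
    intro f _
    exact map_zero f
  smul_mem' := by
    intro c a ha f hf
    rw [map_smul, ha f hf, smul_zero]

/-- The series `∑ a n • u n` converges (its sequence of initial sums has a limit in norm). -/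
def SeriesConverges {E : Type} [NormedAddCommGroup E] [NormedSpace 𝕜 E]
    (a : ℕ → 𝕜) (u : ℕ → E) : Prop :=
  ∃ s : E, Tendsto (fun N => ∑ n ∈ Finset.range N, a n • u n) atTop (𝓝 s)

/-- Equivalence of sequences: the same scalar sequences give convergent series. -/
def EquivalentSequences {E F : Type} [NormedAddCommGroup E] [NormedSpace 𝕜 E]
    [NormedAddCommGroup F] [NormedSpace 𝕜 F] (u : ℕ → E) (v : ℕ → F) : Prop :=
  ∀ a : ℕ → 𝕜, SeriesConverges 𝕜 a u ↔ SeriesConverges 𝕜 a v

/-- The restriction of a functional on `E` to a subspace `X`, as an element of the dual of `X`. -/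
def restrictFunctional {E : Type} [NormedAddCommGroup E] [NormedSpace 𝕜 E]
    (X : Submodule 𝕜 E) (f : StrongDual 𝕜 E) : StrongDual 𝕜 X :=
  f.comp X.subtypeL

end Pool.Agent.MP_68f07c_an
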