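import Pool.Agent.MP_68f07c_an.Defs

namespace Pool.Agent.MP_68f07c_an

open Filter Topology BoundedContinuousFunction
open scoped ENNReal

variable {𝕜 : Type} [RCLike 𝕜]

theorem closedSpan_eq_range {E : Type} [NormedAddCommGroup E] [NormedSpace 𝕜 E]
    (p : ℝ≥0∞) [Fact (1 ≤ p)] (hp : p ≠ ⊤) (T : lp (fun _ : ℕ => 𝕜) p →L[𝕜] E)
    (hT : ∀ y, ‖y‖ ≤ ‖T y‖) :
    closedSpan 𝕜 (fun n => T (lp.single p n (1 : 𝕜))) = T.range := by
  have hanti : AntilipschitzWith 1 T := by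
    apply ContinuousLinearMap.antilipschitz_of_bound
    intro x
    simpa using hT x
  have hcl : IsClosed (T.range : Set E) := by
    exact hanti.isClosed_range T.uniformContinuous
  apply le_antisymm
  · apply Submodule.topologicalClosure_minimal _ _ hcl
    rw [Submodule.span_le]
    rintro _ ⟨n, rfl⟩
    exact ⟨_, rfl⟩
  · rintro _ ⟨y, rfl⟩
    have h1 := (lp.hasSum_single hp y).mapL T
    have h2 : ∀ s : Finset ℕ, ∑ i ∈ s, T (lp.single p i (y i)) ∈
        Submodule.span 𝕜 (Set.range (fun n => T (lp.single p n (1 : 𝕜)))) := by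
      intro s
      apply Submodule.sum_mem
      intro i _
      have : (lp.single p i (y i) : lp (fun _ : ℕ => 𝕜) p) = y i • lp.single p i (1 : 𝕜) := by
        rw [← lp.single_smul]; simp
      rw [this, map_smul]
      exact Submodule.smul_mem _ _ (Submodule.subset_span ⟨i, rfl⟩)
    exact mem_closure_of_tendsto h1 (Eventually.of_forall h2)

theorem isBasic_of_embedding {E : Type} [NormedAddCommGroup E] [NormedSpace 𝕜 E]
    (p : ℝ≥0∞) [Fact (1 ≤ p)] (hp : p ≠ ⊤) (T : lp (fun _ : ℕ => 𝕜) p →L[𝕜] E)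
    (hT : ∀ y, ‖y‖ ≤ ‖T y‖) :
    IsBasicSequence 𝕜 (fun n => T (lp.single p n (1 : 𝕜))) := by
  have hr := closedSpan_eq_range p hp T hT
  set X := closedSpan 𝕜 (fun n => T (lp.single p n (1 : 𝕜))) with hX
  have hmem : ∀ y, T y ∈ X := fun y => by rw [hr]; exact ⟨y, rfl⟩
  let T' : lp (fun _ : ℕ => 𝕜) p →L[𝕜] X := T.codRestrict X hmem
  have hinj : Function.Injective T' := by
    rw [injective_iff_map_eq_zero]
    intro y hy
    have : T y = 0 := congrArg Subtype.val hy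
    have h2 := hT y
    rw [this, norm_zero] at h2
    exact norm_le_zero_iff.mp h2
  have hsurj : Function.Surjective T' := by
    rintro ⟨x, hx⟩
    rw [hr] at hx
    obtain ⟨y, rfl⟩ := hx
    exact ⟨y, rfl⟩
  let e : lp (fun _ : ℕ => 𝕜) p ≃ₗ[𝕜] X := LinearEquiv.ofBijective T'.toLinearMap ⟨hinj, hsurj⟩
  have he : ∀ y, e y = T' y := fun _ => rfl
  let S : X →L[𝕜] lp (fun _ : ℕ => 𝕜) p := e.symm.toLinearMap.mkContinuous 1 (by
    intro x
    obtain ⟨y, rfl⟩ := e.surjective x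
    simp only [LinearEquiv.coe_coe, LinearEquiv.symm_apply_apply, one_mul]
    exact hT y)
  have hS : ∀ y, S (T' y) = y := fun y => by
    change e.symm (e y) = y
    simp
  refine ⟨⟨fun n => T' (lp.single p n (1 : 𝕜)),
    fun i => (lp.evalCLM 𝕜 (fun _ : ℕ => 𝕜) p i).comp S, ?_, ?_⟩, fun n => rfl⟩
  · intro i j
    simp only [ContinuousLinearMap.comp_apply, hS]
    change (lp.single p j (1 : 𝕜) : lp (fun _ : ℕ => 𝕜) p) i = _
    rw [lp.single_apply]
    simp [Pi.single_apply]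
  · intro x
    obtain ⟨y, rfl⟩ := hsurj x
    have h1 := (lp.hasSum_single hp y).mapL T'
    have h2 : (fun i => ((lp.evalCLM 𝕜 (fun _ : ℕ => 𝕜) p i).comp S) (T' y) •
        T' (lp.single p i (1 : 𝕜))) = fun i => T' (lp.single p i (y i)) := by
      funext i
      simp only [ContinuousLinearMap.comp_apply, hS]
      rw [← map_smul, ← lp.single_smul]
      change T' (lp.single p i (y i • (1 : 𝕜))) = _
      simp
    rw [h2]
    exact h1.mono_left (SummationFilter.conditional ℕ).le_atTop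

/-- enumeration of the rationals -/
noncomputable def q : ℕ ≃ ℚ := (Denumerable.eqv ℚ).symm

abbrev L2 (𝕜 : Type) [RCLike 𝕜] := lp (fun _ : ℕ => 𝕜) 2
abbrev L1 (𝕜 : Type) [RCLike 𝕜] := lp (fun _ : ℕ => 𝕜) 1
abbrev Sp (𝕜 : Type) [RCLike 𝕜] := L2 𝕜 × (ℚ →ᵇ 𝕜)

noncomputable def xx (n : ℕ) : Sp 𝕜 :=
  ContinuousLinearMap.inl 𝕜 (L2 𝕜) (ℚ →ᵇ 𝕜) (lp.single 2 n (1 : 𝕜))

noncomputable def ff (n : ℕ) : StrongDual 𝕜 (Sp 𝕜) :=
  (lp.evalCLM 𝕜 (fun _ : ℕ => 𝕜) 2 n).comp (ContinuousLinearMap.fst 𝕜 (L2 𝕜) (ℚ →ᵇ 𝕜)) +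
  (BoundedContinuousFunction.evalCLM 𝕜 (q n)).comp (ContinuousLinearMap.snd 𝕜 (L2 𝕜) (ℚ →ᵇ 𝕜))

theorem ff_apply (n : ℕ) (x : Sp 𝕜) : ff n x = x.1 n + x.2 (q n) := rfl

theorem norm_ff_le (n : ℕ) : ‖(ff n : StrongDual 𝕜 (Sp 𝕜))‖ ≤ 2 := by
  apply ContinuousLinearMap.opNorm_le_bound _ (by norm_num)
  intro x
  rw [ff_apply]
  have h1 : ‖x.1 n‖ ≤ ‖x‖ := (lp.norm_apply_le_norm (by norm_num) x.1 n).trans (norm_fst_le x)
  have h2 : ‖x.2 (q n)‖ ≤ ‖x‖ := (x.2.norm_coe_le_norm _).trans (norm_snd_le x)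
  have := norm_add_le (x.1 n) (x.2 (q n))
  linarith

theorem biorth (i j : ℕ) : ff i (xx j : Sp 𝕜) = if i = j then 1 else 0 := by
  rw [ff_apply]
  simp [xx, lp.single_apply, Pi.single_apply]

theorem norm_xx (n : ℕ) : ‖(xx n : Sp 𝕜)‖ = 1 := by
  simp [xx, Prod.norm_def, lp.norm_single]

theorem xx_basic : IsBasicSequence 𝕜 (xx : ℕ → Sp 𝕜) := by
  apply isBasic_of_embedding 2 (by norm_num) (ContinuousLinearMap.inl 𝕜 (L2 𝕜) (ℚ →ᵇ 𝕜))
  intro y
  simp [Prod.norm_def]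

theorem exists_interp (N : ℕ) (c : ℕ → 𝕜) (hc : ∀ n, ‖c n‖ ≤ 1) :
    ∃ z : ℚ →ᵇ 𝕜, ‖z‖ ≤ 1 ∧ ∀ n < N, z (q n) = c n := by
  let s : Set ℚ := q '' (Set.Iio N)
  have hs : s.Finite := (Set.finite_Iio N).image _
  have : Finite s := hs
  let g : s →ᵇ 𝕜 := BoundedContinuousFunction.ofNormedAddCommGroup (fun t => c (q.symm t))
    continuous_of_discreteTopology 1 (fun t => hc _)
  obtain ⟨z, hz, hz2⟩ := BoundedContinuousFunction.exists_norm_eq_domRestrict_eq hs.isClosed 𝕜 g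
  refine ⟨z, ?_, ?_⟩
  · rw [hz]
    exact BoundedContinuousFunction.norm_ofNormedAddCommGroup_le _ (by norm_num) _
  · intro n hn
    have := congrArg (fun h : s →ᵇ 𝕜 => h ⟨q n, n, hn, rfl⟩) hz2
    simpa [g] using this

theorem exists_sign (a : 𝕜) : ∃ c : 𝕜, ‖c‖ ≤ 1 ∧ a * c = (‖a‖ : 𝕜) := by
  by_cases h : a = 0
  · exact ⟨0, by simp, by simp [h]⟩
  · refine ⟨(‖a‖ : 𝕜) / a, ?_, ?_⟩
    · rw [norm_div]
      simp [div_self (norm_ne_zero_iff.mpr h)]
    · field_simp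

theorem sum_norm_le (N : ℕ) (a : ℕ → 𝕜) :
    ∑ n ∈ Finset.range N, ‖a n‖ ≤
      ‖∑ n ∈ Finset.range N, a n • (ff n : StrongDual 𝕜 (Sp 𝕜))‖ := by
  choose c hc1 hc2 using fun n => exists_sign (a n)
  obtain ⟨z, hz, hz2⟩ := exists_interp N c hc1
  have h1 : (∑ n ∈ Finset.range N, a n • (ff n : StrongDual 𝕜 (Sp 𝕜))) (0, z) =
      ((∑ n ∈ Finset.range N, ‖a n‖ : ℝ) : 𝕜) := by
    rw [_root_.sum_apply, RCLike.ofReal_sum]
    apply Finset.sum_congr rfl
    intro n hn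
    rw [_root_.smul_apply, ff_apply]
    simp [hz2 n (Finset.mem_range.mp hn), hc2]
  have h2 := (∑ n ∈ Finset.range N, a n • (ff n : StrongDual 𝕜 (Sp 𝕜))).le_opNorm (0, z)
  rw [h1, RCLike.norm_ofReal, abs_of_nonneg (Finset.sum_nonneg fun _ _ => norm_nonneg _)] at h2
  have h3 : ‖((0, z) : Sp 𝕜)‖ ≤ 1 := by simpa [Prod.norm_def] using hz
  exact h2.trans (mul_le_of_le_one_right (norm_nonneg _) h3)

theorem isBasic_of_l1 {F : Type} [NormedAddCommGroup F] [NormedSpace 𝕜 F] [CompleteSpace F]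
    (f : ℕ → F) (hf : ∀ n, ‖f n‖ ≤ 2)
    (hl : ∀ (N : ℕ) (a : ℕ → 𝕜), ∑ n ∈ Finset.range N, ‖a n‖ ≤ ‖∑ n ∈ Finset.range N, a n • f n‖) :
    IsBasicSequence 𝕜 f := by
  let T : L1 𝕜 →L[𝕜] F := (lp.tsumCLM 𝕜 ℕ F).comp
    (lp.mapCLM 1 (fun n => ContinuousLinearMap.toSpanSingleton 𝕜 (f n))
      (K := 2) (by norm_num) (fun n => by
        rw [ContinuousLinearMap.norm_toSpanSingleton]; exact hf n))
  have T_apply : ∀ a : L1 𝕜, T a = ∑' n, a n • f n := fun _ => rfl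
  have T_single : ∀ n, T (lp.single 1 n (1 : 𝕜)) = f n := by
    intro n
    rw [T_apply, tsum_eq_single n]
    · simp [lp.single_apply]
    · intro m hm
      rw [lp.single_apply, Pi.single_eq_of_ne hm]
      exact zero_smul 𝕜 (f m)
  have norm_le_T : ∀ a : L1 𝕜, ‖a‖ ≤ ‖T a‖ := by
    intro a
    have h1 := ((lp.hasSum_single (p := 1) (by norm_num) a).mapL T).tendsto_sum_nat
    have h2 : ∀ i, T (lp.single 1 i (a i)) = a i • f i := by
      intro i
      rw [← T_single, ← map_smul, ← lp.single_smul]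
      simp
    simp only [h2] at h1
    have h3 : HasSum (fun i => ‖a i‖) ‖a‖ := by
      simpa using lp.hasSum_norm (p := 1) (by norm_num) a
    exact le_of_tendsto_of_tendsto' h3.tendsto_sum_nat h1.norm (fun N => hl N a)
  have := isBasic_of_embedding 1 (by norm_num) T norm_le_T
  simpa only [T_single] using this

theorem ff_basic : IsBasicSequence 𝕜 (ff : ℕ → StrongDual 𝕜 (Sp 𝕜)) :=
  isBasic_of_l1 ff norm_ff_le sum_norm_le

theorem total (x : Sp 𝕜) (h : ∀ n, ff n x = 0) : x = 0 := by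
  obtain ⟨y, z⟩ := x
  have h1 : ∀ n, z (q n) = - y n := fun n => by
    have := h n
    rw [ff_apply] at this
    exact eq_neg_of_add_eq_zero_right this
  have h2 : Tendsto (fun n => y n) cofinite (𝓝 0) := by
    have hs : Summable (fun i => ‖y i‖ ^ (2 : ℝ≥0∞).toReal) := (lp.memℓp y).summable (by norm_num)
    have h3 := hs.tendsto_cofinite_zero
    rw [tendsto_zero_iff_norm_tendsto_zero]
    have h4 := h3.sqrt
    simpa using h4
  have h3 : Tendsto (fun t : ℚ => z t) cofinite (𝓝 0) := by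
    have h4 : (fun t : ℚ => z t) = (fun n => - y n) ∘ q.symm := by
      funext t
      simp [← h1]
    rw [h4]
    have h5 := h2.neg
    rw [neg_zero] at h5
    exact h5.comp q.symm.injective.tendsto_cofinite
  have h4 : ∀ t, z t = 0 := by
    intro t
    have h5 : Tendsto (fun s : ℚ => z s) (𝓝[≠] t) (𝓝 (z t)) :=
      (z.continuous.tendsto t).mono_left nhdsWithin_le_nhds
    have h6 : (𝓝[≠] t ⊓ cofinite).NeBot := by
      have : 𝓝[≠] t ≤ cofinite := nhdsNE_le_cofinite t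
      rw [inf_eq_left.mpr this]
      infer_instance
    exact tendsto_nhds_unique (h5.mono_left (inf_le_left (b := cofinite)))
      (h3.mono_left inf_le_right)
  have hz : z = 0 := by ext t; exact h4 t
  have hy : y = 0 := by
    ext n
    have := h1 n
    rw [h4] at this
    simpa using this.symm
  rw [hz, hy]; rfl

theorem preAnn_eq_bot :
    preAnnihilator 𝕜 (closedSpan 𝕜 (ff : ℕ → StrongDual 𝕜 (Sp 𝕜)) : Set (StrongDual 𝕜 (Sp 𝕜)))
      = ⊥ := by
  rw [eq_bot_iff]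
  intro x hx
  apply total x
  intro n
  apply hx
  exact Submodule.le_topologicalClosure _ (Submodule.subset_span ⟨n, rfl⟩)

theorem not_equiv : ¬ EquivalentSequences 𝕜 (ff : ℕ → StrongDual 𝕜 (Sp 𝕜))
    (fun n => restrictFunctional 𝕜 (closedSpan 𝕜 (xx : ℕ → Sp 𝕜)) (ff n)) := by
  intro h
  let a : ℕ → 𝕜 := fun n => ((1 / (n + 1) : ℝ) : 𝕜)
  have ha : ∀ n, ‖a n‖ = 1 / (n + 1) := fun n => by
    simp only [a]
    rw [RCLike.norm_ofReal, abs_of_nonneg (by positivity)]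
  have hmem : Memℓp a 2 := by
    apply memℓp_gen
    simp only [ha]
    have := (summable_nat_add_iff 1).mpr (Real.summable_one_div_nat_pow.mpr (by norm_num : 1 < 2))
    simpa using this
  let A : L2 𝕜 := ⟨a, hmem⟩
  set X := closedSpan 𝕜 (xx : ℕ → Sp 𝕜) with hX
  have hXr : X = (ContinuousLinearMap.inl 𝕜 (L2 𝕜) (ℚ →ᵇ 𝕜)).range := by
    apply closedSpan_eq_range 2 (by norm_num) (ContinuousLinearMap.inl 𝕜 (L2 𝕜) (ℚ →ᵇ 𝕜))
    intro y
    simp [Prod.norm_def]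
  let P : X →L[𝕜] L2 𝕜 := (ContinuousLinearMap.fst 𝕜 (L2 𝕜) (ℚ →ᵇ 𝕜)).comp X.subtypeL
  let S : L2 𝕜 → StrongDual 𝕜 X := fun y => (innerSL 𝕜 y).comp P
  have hScont : Continuous S := by
    apply Continuous.clm_comp (innerSL 𝕜).continuous continuous_const
  have hSsum : ∀ N, S (∑ n ∈ Finset.range N, lp.single 2 n (A n)) =
      ∑ n ∈ Finset.range N, a n • restrictFunctional 𝕜 X (ff n) := by
    intro N
    ext x
    obtain ⟨x, hx⟩ := x
    have hx' := hx
    rw [hXr] at hx'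
    obtain ⟨y, rfl⟩ := hx'
    simp only [S, P, ContinuousLinearMap.comp_apply, innerSL_apply_apply, sum_inner,
      _root_.sum_apply, _root_.smul_apply, restrictFunctional]
    apply Finset.sum_congr rfl
    intro n _
    rw [lp.inner_single_left]
    simp [ff_apply, A, a, mul_comm]
  have hconv : SeriesConverges 𝕜 a (fun n => restrictFunctional 𝕜 X (ff n)) := by
    refine ⟨S A, ?_⟩
    have h1 := (lp.hasSum_single (p := 2) (by norm_num) A).tendsto_sum_nat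
    have h2 := (hScont.tendsto A).comp h1
    simpa only [Function.comp_def, hSsum] using h2
  obtain ⟨s, hs⟩ := (h a).mpr hconv
  have h1 : Tendsto (fun N => ∑ n ∈ Finset.range N, ‖a n‖) atTop atTop := by
    simp only [ha]
    exact Real.tendsto_sum_range_one_div_nat_succ_atTop
  have h2 := tendsto_atTop_mono (fun N => sum_norm_le N a) h1
  exact not_tendsto_atTop_of_tendsto_nhds hs.norm h2

theorem main (𝕜 : Type) [RCLike 𝕜] :
    ∃ (E : Type) (_ : NormedAddCommGroup E) (_ : NormedSpace 𝕜 E) (_ : CompleteSpace E)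
      (x : ℕ → E) (f : ℕ → StrongDual 𝕜 E),
      (∀ i j, f i (x j) = if i = j then 1 else 0) ∧
      IsBasicSequence 𝕜 x ∧ IsBasicSequence 𝕜 f ∧
      (∀ n, ‖x n‖ = 1) ∧ (∀ n, ‖f n‖ ≤ 2) ∧
      IsClosed ((closedSpan 𝕜 x ⊔ preAnnihilator 𝕜 (closedSpan 𝕜 f : Set (StrongDual 𝕜 E)) :
        Submodule 𝕜 E) : Set E) ∧
      ¬ EquivalentSequences 𝕜 f (fun n => restrictFunctional 𝕜 (closedSpan 𝕜 x) (f n)) := by
  refine ⟨Sp 𝕜, inferInstance, inferInstance, inferInstance, xx, ff, biorth, xx_basic, ff_basic,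
    norm_xx, norm_ff_le, ?_, not_equiv⟩
  rw [preAnn_eq_bot, sup_bot_eq]
  exact Submodule.isClosed_topologicalClosure _

end Pool.Agent.MP_68f07c_an
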